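import Mathlib

open Filter Topology

namespace Pool.Agent.Results.MP_47003a_an.NoSimultaneousRenorming

section Defs
variable (𝕜 : Type*) [RCLike 𝕜] {B : Type*} [NormedAddCommGroup B] [NormedSpace 𝕜 B]

/-- `N` is an equivalent norm on `B`. -/
def IsEquivalentNorm (N : Seminorm 𝕜 B) : Prop :=
  ∃ c C : ℝ, 0 < c ∧ c ≤ C ∧ ∀ x : B, c * ‖x‖ ≤ N x ∧ N x ≤ C * ‖x‖

/-- The basis `b` is monotone with respect to `N`. -/
def IsMonotone (b : SchauderBasis 𝕜 B) (N : Seminorm 𝕜 B) : Prop :=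
  ∀ (n : ℕ) (x : B), N (∑ i ∈ Finset.range n, b.coord i x • b.basis i) ≤ N x

/-- `p` is a linear projection of `B` onto the subspace `E`. -/
def IsProjectionOnto (p : B →ₗ[𝕜] B) (E : Submodule 𝕜 B) : Prop :=
  p ∘ₗ p = p ∧ LinearMap.range p = E

/-- Some bounded linear projection of `B` has range `E`. -/
def IsComplemented (E : Submodule 𝕜 B) : Prop :=
  ∃ p : B →L[𝕜] B, IsProjectionOnto 𝕜 (p : B →ₗ[𝕜] B) E

/-- The operator norm of `p` with respect to `N` is at most one. -/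
def IsNormLeOne (p : B →ₗ[𝕜] B) (N : Seminorm 𝕜 B) : Prop := ∀ x : B, N (p x) ≤ N x

end Defs

/-! ### A sign choice in Hilbert space -/

theorem exists_signs {𝕜 : Type*} [RCLike 𝕜] {H : Type*} [NormedAddCommGroup H] [InnerProductSpace 𝕜 H]
    (h : ℕ → H) (n : ℕ) : ∃ ε : ℕ → ℝ, (∀ j, |ε j| = 1) ∧
      ∑ j ∈ Finset.range n, ‖h j‖ ^ 2 ≤ ‖∑ j ∈ Finset.range n, ((ε j : ℝ) : 𝕜) • h j‖ ^ 2 := by
  induction n with
  | zero => exact ⟨fun _ => 1, by simp, by simp⟩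
  | succ n ih =>
    obtain ⟨ε, hε, hle⟩ := ih
    set S := ∑ j ∈ Finset.range n, ((ε j : ℝ) : 𝕜) • h j with hS
    obtain ⟨s, hs1, hs2⟩ : ∃ s : ℝ, |s| = 1 ∧ 0 ≤ RCLike.re (inner 𝕜 S ((s : 𝕜) • h n)) := by
      rcases le_total 0 (RCLike.re (inner 𝕜 S (h n))) with h0 | h0
      · exact ⟨1, by simp, by simpa using h0⟩
      · exact ⟨-1, by simp, by simpa using h0⟩
    refine ⟨fun j => if j = n then s else ε j, ?_, ?_⟩
    · intro j
      by_cases hj : j = n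
      · simp [hj, hs1]
      · simp [hj, hε j]
    · rw [Finset.sum_range_succ, Finset.sum_range_succ]
      have h1 : ∑ j ∈ Finset.range n, (((if j = n then s else ε j : ℝ)) : 𝕜) • h j = S := by
        rw [hS]
        refine Finset.sum_congr rfl (fun j hj => ?_)
        rw [if_neg (Finset.mem_range.mp hj).ne]
      have e0 : ((((fun j => if j = n then s else ε j) n : ℝ)) : 𝕜) = (s : 𝕜) := by simp
      rw [h1, e0, @norm_add_sq 𝕜]
      have h2 : ‖(s : 𝕜) • h n‖ = ‖h n‖ := by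
        rw [norm_smul, RCLike.norm_ofReal, hs1, one_mul]
      rw [h2]
      linarith

variable (𝕜 : Type) [RCLike 𝕜]

/-- `ℓ²`. -/
abbrev L2 : Type := lp (fun _ : ℕ => 𝕜) 2
/-- `ℓ⁴`. -/
abbrev L4 : Type := lp (fun _ : ℕ => 𝕜) 4

instance fact4 : Fact ((1 : ENNReal) ≤ 4) := ⟨by norm_num⟩

/-- Coordinates of `ℓ²`. -/
noncomputable def ev2 (j : ℕ) : L2 𝕜 →L[𝕜] 𝕜 := lp.evalCLM 𝕜 (fun _ : ℕ => 𝕜) 2 j
/-- Coordinates of `ℓ⁴`. -/
noncomputable def ev4 (j : ℕ) : L4 𝕜 →L[𝕜] 𝕜 := lp.evalCLM 𝕜 (fun _ : ℕ => 𝕜) 4 j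

theorem ev2_apply (j : ℕ) (x : L2 𝕜) : ev2 𝕜 j x = x j := rfl
theorem ev4_apply (j : ℕ) (x : L4 𝕜) : ev4 𝕜 j x = x j := rfl

/-- The unit vectors of `ℓ²` and `ℓ⁴`. -/
noncomputable def e2 (j : ℕ) : L2 𝕜 := lp.single 2 j (1 : 𝕜)
noncomputable def e4 (j : ℕ) : L4 𝕜 := lp.single 4 j (1 : 𝕜)

theorem ev2_e2 (i j : ℕ) : ev2 𝕜 i (e2 𝕜 j) = if i = j then 1 else 0 := by
  rw [ev2_apply, e2, lp.single_apply]; simp [Pi.single_apply]
theorem ev4_e4 (i j : ℕ) : ev4 𝕜 i (e4 𝕜 j) = if i = j then 1 else 0 := by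
  rw [ev4_apply, e4, lp.single_apply]; simp [Pi.single_apply]

/-- The space `ℓ² ⊕ ℓ⁴`. -/
abbrev BB : Type := L2 𝕜 × L4 𝕜

/-- The basis vectors. -/
noncomputable def bv (n : ℕ) : BB 𝕜 :=
  if Even n then (e2 𝕜 (n / 2), e4 𝕜 (n / 2)) else (e2 𝕜 (n / 2), (2 : 𝕜) • e4 𝕜 (n / 2))

/-- The coordinate functionals. -/
noncomputable def cf (n : ℕ) : StrongDual 𝕜 (BB 𝕜) :=
  if Even n then (2 : 𝕜) • (ev2 𝕜 (n / 2)).comp (ContinuousLinearMap.fst 𝕜 _ _) -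
      (ev4 𝕜 (n / 2)).comp (ContinuousLinearMap.snd 𝕜 _ _)
    else (ev4 𝕜 (n / 2)).comp (ContinuousLinearMap.snd 𝕜 _ _) -
      (ev2 𝕜 (n / 2)).comp (ContinuousLinearMap.fst 𝕜 _ _)

theorem bv_even (j : ℕ) : bv 𝕜 (2 * j) = (e2 𝕜 j, e4 𝕜 j) := by
  simp [bv]

theorem bv_odd (j : ℕ) : bv 𝕜 (2 * j + 1) = (e2 𝕜 j, (2 : 𝕜) • e4 𝕜 j) := by
  have h1 : ¬ Even (2 * j + 1) := by rw [Nat.not_even_iff_odd]; exact ⟨j, rfl⟩
  have h2 : (2 * j + 1) / 2 = j := by omega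
  rw [bv, if_neg h1, h2]

theorem cf_even (j : ℕ) (z : BB 𝕜) : cf 𝕜 (2 * j) z = 2 * z.1 j - z.2 j := by
  simp [cf, ev2_apply, ev4_apply]

theorem cf_odd (j : ℕ) (z : BB 𝕜) : cf 𝕜 (2 * j + 1) z = z.2 j - z.1 j := by
  have h1 : ¬ Even (2 * j + 1) := by rw [Nat.not_even_iff_odd]; exact ⟨j, rfl⟩
  have h2 : (2 * j + 1) / 2 = j := by omega
  rw [cf, if_neg h1, h2]
  simp [ev2_apply, ev4_apply]

theorem e2_apply (i j : ℕ) : e2 𝕜 j i = if i = j then 1 else 0 := by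
  rw [← ev2_apply, ev2_e2]
theorem e4_apply (i j : ℕ) : e4 𝕜 j i = if i = j then 1 else 0 := by
  rw [← ev4_apply, ev4_e4]

theorem ortho (i j : ℕ) : cf 𝕜 i (bv 𝕜 j) = if i = j then 1 else 0 := by
  rcases Nat.even_or_odd' i with ⟨a, rfl | rfl⟩ <;> rcases Nat.even_or_odd' j with ⟨b, rfl | rfl⟩
  · rw [bv_even, cf_even, e2_apply, e4_apply]
    by_cases h : a = b
    · simp [h]; ring
    · rw [if_neg h, if_neg (by omega)]; ring
  · rw [bv_odd, cf_even, e2_apply, lp.coeFn_smul, Pi.smul_apply, e4_apply,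
      if_neg (show ¬ (2 * a = 2 * b + 1) by omega)]
    by_cases h : a = b
    · simp [h]
    · simp [h]
  · rw [bv_even, cf_odd, e2_apply, e4_apply, if_neg (show ¬ (2 * a + 1 = 2 * b) by omega)]
    by_cases h : a = b
    · simp [h]
    · simp [h]
  · rw [bv_odd, cf_odd, e2_apply, lp.coeFn_smul, Pi.smul_apply, e4_apply]
    by_cases h : a = b
    · simp [h]; ring
    · rw [if_neg h, if_neg (by omega)]; simp

/-- partial sums -/
noncomputable def S (z : BB 𝕜) (n : ℕ) : BB 𝕜 := ∑ i ∈ Finset.range n, cf 𝕜 i z • bv 𝕜 i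

theorem S_even (z : BB 𝕜) (j : ℕ) : S 𝕜 z (2 * j) =
    (∑ i ∈ Finset.range j, lp.single 2 i (z.1 i), ∑ i ∈ Finset.range j, lp.single 4 i (z.2 i)) := by
  induction j with
  | zero => simp [S]; rfl
  | succ j ih =>
    have h1 : S 𝕜 z (2 * (j + 1)) = S 𝕜 z (2 * j) + cf 𝕜 (2 * j) z • bv 𝕜 (2 * j)
        + cf 𝕜 (2 * j + 1) z • bv 𝕜 (2 * j + 1) := by
      have : 2 * (j + 1) = 2 * j + 1 + 1 := by ring
      rw [this, S, Finset.sum_range_succ, Finset.sum_range_succ]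
      rfl
    rw [h1, ih, Finset.sum_range_succ, Finset.sum_range_succ, cf_even, cf_odd, bv_even, bv_odd]
    have s2 : lp.single 2 j (z.1 j) = (z.1 j) • e2 𝕜 j := by
      rw [e2, ← lp.single_smul, smul_eq_mul, mul_one]
    have s4 : lp.single 4 j (z.2 j) = (z.2 j) • e4 𝕜 j := by
      rw [e4, ← lp.single_smul, smul_eq_mul, mul_one]
    rw [s2, s4]
    ext1
    · simp only [Prod.fst_add, Prod.smul_fst]
      module
    · simp only [Prod.snd_add, Prod.smul_snd]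
      module

theorem tendsto_S (z : BB 𝕜) : Tendsto (S 𝕜 z) atTop (𝓝 z) := by
  have h1 : Tendsto (fun j => S 𝕜 z (2 * j)) atTop (𝓝 z) := by
    simp only [S_even]
    exact ((lp.hasSum_single (by norm_num) z.1).tendsto_sum_nat).prodMk_nhds
      ((lp.hasSum_single (by norm_num) z.2).tendsto_sum_nat)
  have hhalf : Tendsto (fun n : ℕ => n / 2) atTop atTop :=
    Nat.tendsto_div_const_atTop (by norm_num)
  have c1 : Tendsto (fun j => z.1 j) atTop (𝓝 0) := by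
    have := ((lp.hasSum_single (p := 2) (by norm_num) z.1).summable).tendsto_atTop_zero
    rw [tendsto_zero_iff_norm_tendsto_zero] at this ⊢
    refine this.congr (fun j => ?_)
    exact lp.norm_single (by norm_num) _ _
  have c2 : Tendsto (fun j => z.2 j) atTop (𝓝 0) := by
    have := ((lp.hasSum_single (p := 4) (by norm_num) z.2).summable).tendsto_atTop_zero
    rw [tendsto_zero_iff_norm_tendsto_zero] at this ⊢
    refine this.congr (fun j => ?_)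
    exact lp.norm_single (by norm_num) _ _
  have h2 : Tendsto (fun j => cf 𝕜 (2 * j) z • bv 𝕜 (2 * j)) atTop (𝓝 0) := by
    have c3 : Tendsto (fun j => 2 * z.1 j - z.2 j) atTop (𝓝 (2 * 0 - 0)) := (c1.const_mul 2).sub c2
    rw [mul_zero, sub_zero] at c3
    rw [tendsto_zero_iff_norm_tendsto_zero] at c3 ⊢
    refine c3.congr (fun j => ?_)
    rw [norm_smul, cf_even, bv_even, Prod.norm_def]
    have n1 : ‖e2 𝕜 j‖ = 1 := by rw [e2, lp.norm_single (by norm_num)]; simp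
    have n2 : ‖e4 𝕜 j‖ = 1 := by rw [e4, lp.norm_single (by norm_num)]; simp
    simp [n1, n2]
  have h3 := h1.comp hhalf
  have h4 := h2.comp hhalf
  rw [tendsto_iff_norm_sub_tendsto_zero] at h3 ⊢
  rw [tendsto_zero_iff_norm_tendsto_zero] at h4
  have h5 := h3.add h4
  rw [add_zero] at h5
  apply squeeze_zero (fun _ => norm_nonneg _) _ h5
  intro n
  simp only [Function.comp]
  rcases Nat.even_or_odd' n with ⟨j, rfl | rfl⟩
  · have e : 2 * j / 2 = j := by omega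
    rw [e]
    have := norm_nonneg (cf 𝕜 (2 * j) z • bv 𝕜 (2 * j))
    linarith
  · have e : (2 * j + 1) / 2 = j := by omega
    rw [e]
    have e1 : S 𝕜 z (2 * j + 1) = S 𝕜 z (2 * j) + cf 𝕜 (2 * j) z • bv 𝕜 (2 * j) := by
      rw [S, Finset.sum_range_succ]; rfl
    have e2 : S 𝕜 z (2 * j + 1) - z = (S 𝕜 z (2 * j) - z) + cf 𝕜 (2 * j) z • bv 𝕜 (2 * j) := by
      rw [e1]; abel
    rw [e2]
    exact norm_add_le _ _

/-- The Schauder basis. -/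
noncomputable def basis : SchauderBasis 𝕜 (BB 𝕜) where
  basis := bv 𝕜
  coord := cf 𝕜
  ortho i j := by rw [ortho]; simp [Pi.single_apply]
  expansion z := by
    rw [HasSum, SummationFilter.conditional_filter_eq_map_range, tendsto_map'_iff]
    exact tendsto_S 𝕜 z

/-- The complemented subspace `ℓ² ⊕ 0`. -/
noncomputable def EE : Submodule 𝕜 (BB 𝕜) := Submodule.prod ⊤ ⊥

theorem mem_EE (z : BB 𝕜) : z ∈ EE 𝕜 ↔ z.2 = 0 := by
  simp [EE, Submodule.mem_prod]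

theorem complemented : IsComplemented 𝕜 (EE 𝕜) := by
  refine ⟨(ContinuousLinearMap.inl 𝕜 (L2 𝕜) (L4 𝕜)).comp (ContinuousLinearMap.fst 𝕜 _ _), ?_, ?_⟩
  · ext z <;> simp
  · ext z
    rw [mem_EE, LinearMap.mem_range]
    constructor
    · rintro ⟨w, rfl⟩
      simp
    · intro h
      refine ⟨z, ?_⟩
      ext1
      · simp
      · simp [h]

theorem isClosed_EE : IsClosed (EE 𝕜 : Set (BB 𝕜)) := by
  have : (EE 𝕜 : Set (BB 𝕜)) = Prod.snd ⁻¹' {0} := by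
    ext z; simp [mem_EE]
  rw [this]
  exact isClosed_singleton.preimage continuous_snd

/-- Bounded linear maps `ℓ⁴ → ℓ²` cannot be bounded below on the unit vectors. -/
theorem exists_small (K : L4 𝕜 →ₗ[𝕜] L2 𝕜) {M : ℝ} (hK : ∀ y, ‖K y‖ ≤ M * ‖y‖) {δ : ℝ}
    (hδ : 0 < δ) : ∃ j, ‖K (e4 𝕜 j)‖ < δ := by
  by_contra hcon
  push Not at hcon
  have key : ∀ n : ℕ, (n : ℝ) * δ ^ 4 ≤ M ^ 4 := by
    intro n
    obtain ⟨ε, hε, hle⟩ := exists_signs (𝕜 := 𝕜) (fun j => K (e4 𝕜 j)) n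
    have h1 : (n : ℝ) * δ ^ 2 ≤ ∑ j ∈ Finset.range n, ‖K (e4 𝕜 j)‖ ^ 2 := by
      have : ∑ j ∈ Finset.range n, δ ^ 2 ≤ ∑ j ∈ Finset.range n, ‖K (e4 𝕜 j)‖ ^ 2 :=
        Finset.sum_le_sum (fun j _ => pow_le_pow_left₀ hδ.le (hcon j) 2)
      simpa using this
    set y : L4 𝕜 := ∑ j ∈ Finset.range n, lp.single 4 j ((ε j : ℝ) : 𝕜) with hy
    have h2 : ∑ j ∈ Finset.range n, ((ε j : ℝ) : 𝕜) • K (e4 𝕜 j) = K y := by
      rw [hy, map_sum]
      refine Finset.sum_congr rfl (fun j _ => ?_)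
      rw [← map_smul]
      congr 1
      rw [e4, ← lp.single_smul, smul_eq_mul, mul_one]
    have h3 : ‖y‖ ^ 4 = n := by
      have := lp.norm_sum_single (p := 4) (by norm_num) (fun j => ((ε j : ℝ) : 𝕜)) (Finset.range n)
      rw [← hy] at this
      have e4' : (4 : ENNReal).toReal = ((4 : ℕ) : ℝ) := by norm_num
      simp only [e4', Real.rpow_natCast, RCLike.norm_ofReal, hε, one_pow, Finset.sum_const,
        Finset.card_range, nsmul_eq_mul, mul_one] at this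
      exact this
    rw [h2] at hle
    have h4 : (n : ℝ) * δ ^ 2 ≤ (M * ‖y‖) ^ 2 :=
      h1.trans (hle.trans (pow_le_pow_left₀ (norm_nonneg _) (hK y) 2))
    have h5 : ((n : ℝ) * δ ^ 2) ^ 2 ≤ ((M * ‖y‖) ^ 2) ^ 2 := pow_le_pow_left₀ (by positivity) h4 2
    have h6 : ((M * ‖y‖) ^ 2) ^ 2 = M ^ 4 * n := by rw [← h3]; ring
    rw [h6] at h5
    rcases Nat.eq_zero_or_pos n with hn | hn
    · rw [hn]; simp; positivity
    · have hn' : (0 : ℝ) < n := by exact_mod_cast hn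
      have h7 : (n : ℝ) * ((n : ℝ) * δ ^ 4) ≤ n * M ^ 4 := by nlinarith
      exact le_of_mul_le_mul_left h7 hn'
  obtain ⟨n, hn⟩ := exists_nat_gt (M ^ 4 / δ ^ 4)
  have h1 := key n
  rw [div_lt_iff₀ (by positivity)] at hn
  linarith

theorem main (N : Seminorm 𝕜 (BB 𝕜)) (hN : IsEquivalentNorm 𝕜 N) (hmon : IsMonotone 𝕜 (basis 𝕜) N)
    (p : BB 𝕜 →ₗ[𝕜] BB 𝕜) (hp : IsProjectionOnto 𝕜 p (EE 𝕜)) : ¬ IsNormLeOne 𝕜 p N := by
  intro hp1
  obtain ⟨c, C, hc, hcC, hN⟩ := hN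
  obtain ⟨hpp, hpr⟩ := hp
  have hC : 0 < C := hc.trans_le hcC
  have hrange : ∀ z, (p z).2 = 0 := by
    intro z
    rw [← mem_EE, ← hpr]
    exact LinearMap.mem_range_self p z
  have hfix : ∀ x : L2 𝕜, p (x, 0) = (x, 0) := by
    intro x
    have h1 : ((x, 0) : BB 𝕜) ∈ LinearMap.range p := by
      rw [hpr, mem_EE]
    obtain ⟨w, hw⟩ := h1
    rw [← hw]
    have := congrArg (fun f : BB 𝕜 →ₗ[𝕜] BB 𝕜 => f w) hpp
    simpa using this
  let K : L4 𝕜 →ₗ[𝕜] L2 𝕜 := (LinearMap.fst 𝕜 _ _).comp (p.comp (LinearMap.inr 𝕜 (L2 𝕜) (L4 𝕜)))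
  have hK : ∀ y, K y = (p (0, y)).1 := fun y => rfl
  have hKb : ∀ y, ‖K y‖ ≤ C / c * ‖y‖ := by
    intro y
    rw [hK, div_mul_eq_mul_div, le_div_iff₀ hc]
    have h1 := (hN (p (0, y))).1
    have h2 := hp1 (0, y)
    have h3 := (hN (0, y)).2
    have h4 : ‖((0, y) : BB 𝕜)‖ = ‖y‖ := by rw [Prod.norm_def]; simp
    have h5 : ‖(p (0, y)).1‖ ≤ ‖p (0, y)‖ := norm_fst_le _
    rw [h4] at h3
    nlinarith
  obtain ⟨j, hj⟩ := exists_small 𝕜 K hKb (δ := c / (2 * C)) (by positivity)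
  have hs : ∑ i ∈ Finset.range (2 * j + 1), (basis 𝕜).coord i (e2 𝕜 j, 0) • (basis 𝕜).basis i
      = ((2 : 𝕜) • e2 𝕜 j, (2 : 𝕜) • e4 𝕜 j) := by
    show S 𝕜 (e2 𝕜 j, 0) (2 * j + 1) = _
    have e1 : S 𝕜 (e2 𝕜 j, 0) (2 * j + 1)
        = S 𝕜 (e2 𝕜 j, 0) (2 * j) + cf 𝕜 (2 * j) (e2 𝕜 j, 0) • bv 𝕜 (2 * j) := by
      rw [S, Finset.sum_range_succ]; rfl
    have e3 : S 𝕜 (e2 𝕜 j, 0) (2 * j) = 0 := by
      rw [S_even]
      ext1
      · show ∑ i ∈ Finset.range j, lp.single 2 i ((e2 𝕜 j) i) = 0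
        apply Finset.sum_eq_zero
        intro i hi
        rw [e2_apply, if_neg (Finset.mem_range.mp hi).ne, lp.single_zero]
      · show ∑ i ∈ Finset.range j, lp.single 4 i ((0 : L4 𝕜) i) = 0
        apply Finset.sum_eq_zero
        intro i _
        simp
    have e4 : cf 𝕜 (2 * j) (e2 𝕜 j, 0) = 2 := by
      rw [cf_even]
      show 2 * (e2 𝕜 j) j - (0 : L4 𝕜) j = 2
      rw [e2_apply]
      simp
    rw [e1, e3, e4, bv_even, zero_add]
    rfl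
  have hps : p ((2 : 𝕜) • e2 𝕜 j, (2 : 𝕜) • e4 𝕜 j) = (2 : 𝕜) • (e2 𝕜 j + K (e4 𝕜 j), 0) := by
    have e1 : (((2 : 𝕜) • e2 𝕜 j, (2 : 𝕜) • e4 𝕜 j) : BB 𝕜)
        = (2 : 𝕜) • (((e2 𝕜 j, 0) : BB 𝕜) + (0, e4 𝕜 j)) := by
      ext1 <;> simp
    rw [e1, map_smul, map_add, hfix]
    congr 1
    ext1
    · simp [hK]
    · simp [hrange]
  have h1 : N ((2 : 𝕜) • (((e2 𝕜 j + K (e4 𝕜 j), 0)) : BB 𝕜)) ≤ N (e2 𝕜 j, 0) := by
    rw [← hps, ← hs]
    exact (hp1 _).trans (hmon _ _)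
  rw [map_smul_eq_mul] at h1
  have h2 : ‖(2 : 𝕜)‖ = 2 := by simp
  rw [h2] at h1
  have h3 : N ((e2 𝕜 j, 0) : BB 𝕜) ≤ N ((e2 𝕜 j + K (e4 𝕜 j), 0) : BB 𝕜) + N ((K (e4 𝕜 j), 0) : BB 𝕜) := by
    have e1 : ((e2 𝕜 j, 0) : BB 𝕜) = (e2 𝕜 j + K (e4 𝕜 j), 0) - (K (e4 𝕜 j), 0) := by
      ext1 <;> simp
    conv_lhs => rw [e1]
    exact map_sub_le_add N _ _
  have h4 : N ((K (e4 𝕜 j), 0) : BB 𝕜) ≤ C * ‖K (e4 𝕜 j)‖ := by
    have := (hN (K (e4 𝕜 j), 0)).2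
    have e1 : ‖((K (e4 𝕜 j), 0) : BB 𝕜)‖ = ‖K (e4 𝕜 j)‖ := by rw [Prod.norm_def]; simp
    rwa [e1] at this
  have h5 : c ≤ N ((e2 𝕜 j, 0) : BB 𝕜) := by
    have := (hN (e2 𝕜 j, 0)).1
    have e1 : ‖((e2 𝕜 j, 0) : BB 𝕜)‖ = 1 := by
      rw [Prod.norm_def]
      have n1 : ‖e2 𝕜 j‖ = 1 := by rw [e2, lp.norm_single (by norm_num)]; simp
      simp [n1]
    rwa [e1, mul_one] at this
  have h6 : C * ‖K (e4 𝕜 j)‖ < c / 2 := by
    have : C * ‖K (e4 𝕜 j)‖ < C * (c / (2 * C)) := mul_lt_mul_of_pos_left hj hC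
    have e1 : C * (c / (2 * C)) = c / 2 := by field_simp
    rwa [e1] at this
  linarith

end Pool.Agent.Results.MP_47003a_an.NoSimultaneousRenorming

open Pool.Agent.Results.MP_47003a_an.NoSimultaneousRenorming in
/-- There are a Banach space `B` with a Schauder basis and a complemented subspace `E` such that no
equivalent norm makes the basis monotone and some projection onto `E` of norm one. -/
theorem Pool.Agent.Results.MP_47003a_an.NoSimultaneousRenorming.result (𝕜 : Type) [RCLike 𝕜] :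
    ∃ (B : Type) (_ : NormedAddCommGroup B) (_ : NormedSpace 𝕜 B) (_ : CompleteSpace B)
      (b : SchauderBasis 𝕜 B) (E : Submodule 𝕜 B),
      IsClosed (E : Set B) ∧ IsComplemented 𝕜 E ∧
        ∀ N : Seminorm 𝕜 B, IsEquivalentNorm 𝕜 N → IsMonotone 𝕜 b N →
          ∀ p : B →ₗ[𝕜] B, IsProjectionOnto 𝕜 p E → ¬ IsNormLeOne 𝕜 p N :=
  ⟨BB 𝕜, inferInstance, inferInstance, inferInstance, basis 𝕜, EE 𝕜, isClosed_EE 𝕜,
    complemented 𝕜, main 𝕜⟩
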